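import Pool.Agent.Q151.Cookie.Prime

/-!
The fractional cookie splitting theorem for any number of children, by induction over the prime
factors.
-/

set_option autoImplicit false

namespace Q151.Cookie

open Finset

theorem LP_prime (p : ℕ) [hp : Fact p.Prime] : LP (ZMod p) := by
  classical
  intro K _ m v S
  obtain ⟨x, h1, h2, h3⟩ := prime_case (p := p) v S
  refine ⟨x, h1, ?_, ?_⟩
  · rw [ZMod.card]; exact h2
  · intro c; rw [ZMod.card]; exact h3 c

theorem LP_one (C : Type) [Fintype C] (hC : Fintype.card C = 1) : LP C := by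
  classical
  obtain ⟨c0, hc0⟩ := Fintype.card_eq_one_iff.1 hC
  intro K _ m v S
  refine ⟨fun _ _ => 1, ⟨fun _ _ => zero_le_one, fun k => ?_, fun c j => ?_⟩, ?_, fun c => ?_⟩
  · rw [Finset.sum_const, Finset.card_univ, hC, one_smul]
  · rw [hC]; simp
  · have : {k : K | ∀ c : C, (1 : ℝ) ≠ 1} = ∅ := by
      ext k
      simp only [Set.mem_ofPred_eq, Set.mem_empty_iff_false, iff_false]
      intro h; exact h c0 rfl
    rw [this, Set.ncard_empty]
    exact Nat.zero_le _
  · rw [hC]
    unfold full
    simp

theorem LP_equiv {C D : Type} [Fintype C] [Fintype D] (e : C ≃ D) (h : LP C) : LP D := by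
  classical
  have hcard : Fintype.card D = Fintype.card C := (Fintype.card_congr e).symm
  intro K _ m v S
  obtain ⟨x, h1, h2, h3⟩ := h K m v S
  refine ⟨fun k d => x k (e.symm d), ⟨fun k d => h1.1 k _, fun k => ?_, fun d j => ?_⟩, ?_, ?_⟩
  · rw [← h1.2.1 k]
    exact Fintype.sum_equiv e.symm _ _ fun _ => rfl
  · rw [hcard]; exact h1.2.2 _ j
  · rw [hcard]
    refine le_trans (le_of_eq ?_) h2
    congr 1
    ext k
    simp only [Set.mem_ofPred_eq]
    constructor
    · intro h c
      have := h (e c)
      rwa [e.symm_apply_apply] at this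
    · intro h d; exact h _
  · intro d
    rw [hcard]
    exact h3 (e.symm d)

theorem LP_prod {C D : Type} [Fintype C] [Fintype D] [Nonempty C] [Nonempty D]
    (hC : LP C) (hD : LP D) : LP (C × D) := by
  classical
  intro K _ m v S
  obtain ⟨x, hx, hxcut, hxfull⟩ := hC K m v S
  have hD' := fun c : C => hD K m (fun k j => x k c * v k j) (S.filter fun k => x k c = 1)
  choose y hy hycut hyfull using hD'
  have hCpos : 0 < Fintype.card C := Fintype.card_pos
  have hDpos : 0 < Fintype.card D := Fintype.card_pos
  have hx1 : ∀ k c, x k c ≤ 1 := fun k c => PP_le_one hx k c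
  have hy1 : ∀ c k d, y c k d ≤ 1 := fun c k d => PP_le_one (hy c) k d
  refine ⟨fun k q => x k q.1 * y q.1 k q.2, ⟨fun k q => ?_, fun k => ?_, fun q j => ?_⟩, ?_, ?_⟩
  · exact mul_nonneg (hx.1 k q.1) ((hy q.1).1 k q.2)
  · rw [Fintype.sum_prod_type]
    simp only [← Finset.mul_sum]
    rw [← hx.2.1 k]
    refine Finset.sum_congr rfl fun c _ => ?_
    rw [(hy c).2.1 k, mul_one]
  · have h1 := (hy q.1).2.2 q.2 j
    have h2 : ∑ k, x k q.1 * y q.1 k q.2 * v k j = ∑ k, y q.1 k q.2 * (x k q.1 * v k j) :=
      Finset.sum_congr rfl fun k _ => by ring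
    rw [h2, h1, hx.2.2 q.1 j, Fintype.card_prod]
    push_cast
    rw [div_div]
  · -- cut cookies
    have hsub : {k : K | ∀ q : C × D, x k q.1 * y q.1 k q.2 ≠ 1} ⊆
        {k | ∀ c, x k c ≠ 1} ∪ ⋃ c, {k | ∀ d, y c k d ≠ 1} := by
      intro k hk
      simp only [Set.mem_ofPred_eq] at hk
      by_cases h : ∀ c, x k c ≠ 1
      · exact Or.inl h
      · push Not at h
        obtain ⟨c, hc⟩ := h
        right
        rw [Set.mem_iUnion]
        refine ⟨c, fun d hd => hk (c, d) ?_⟩
        simp only
        rw [hc, hd, one_mul]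
    have h1 : Set.ncard {k : K | ∀ q : C × D, x k q.1 * y q.1 k q.2 ≠ 1} ≤
        Set.ncard {k | ∀ c, x k c ≠ 1} + ∑ c : C, Set.ncard {k | ∀ d, y c k d ≠ 1} := by
      refine (Set.ncard_le_ncard hsub (Set.toFinite _)).trans ?_
      refine (Set.ncard_union_le _ _).trans ?_
      apply Nat.add_le_add_left
      have : ∀ s : Finset C, Set.ncard (⋃ c ∈ s, {k | ∀ d, y c k d ≠ 1}) ≤
          ∑ c ∈ s, Set.ncard {k | ∀ d, y c k d ≠ 1} := by
        intro s
        induction s using Finset.induction_on with
        | empty => simp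
        | insert a s ha ih =>
          rw [Finset.set_biUnion_insert, Finset.sum_insert ha]
          exact (Set.ncard_union_le _ _).trans (Nat.add_le_add_left ih _)
      have h2 := this Finset.univ
      simpa using h2
    refine h1.trans ?_
    have h2 : ∑ c : C, Set.ncard {k | ∀ d, y c k d ≠ 1} ≤ Fintype.card C * ((Fintype.card D - 1) * m) := by
      calc _ ≤ ∑ _c : C, (Fintype.card D - 1) * m := Finset.sum_le_sum fun c _ => hycut c
        _ = _ := by rw [Finset.sum_const, Finset.card_univ, smul_eq_mul]
    have h3 : (Fintype.card C - 1) * m + Fintype.card C * ((Fintype.card D - 1) * m) =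
        (Fintype.card (C × D) - 1) * m := by
      rw [Fintype.card_prod, ← mul_assoc, ← add_mul]
      congr 1
      obtain ⟨a, ha⟩ : ∃ a, Fintype.card C = a + 1 := ⟨Fintype.card C - 1, by omega⟩
      obtain ⟨b, hb⟩ : ∃ b, Fintype.card D = b + 1 := ⟨Fintype.card D - 1, by omega⟩
      rw [ha, hb]
      simp only [Nat.add_sub_cancel]
      have : (a + 1) * (b + 1) - 1 = a + (a + 1) * b := by
        have : (a + 1) * (b + 1) = a + (a + 1) * b + 1 := by ring
        omega
      omega
    omega
  · -- full cookies
    rintro ⟨c, d⟩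
    have h1 := hxfull c
    have h2 := hyfull c d
    have h3 : full S x c = (S.filter fun k => x k c = 1).card := by
      unfold full
      congr
    rw [← h3] at h2
    have h4 : full (S.filter fun k => x k c = 1) (y c) d ≤
        full S (fun k (q : C × D) => x k q.1 * y q.1 k q.2) (c, d) := by
      unfold full
      apply Finset.card_le_card
      intro k hk
      simp only [Finset.mem_filter] at hk ⊢
      refine ⟨hk.1.1, ?_⟩
      rw [hk.1.2, hk.2, one_mul]
    rw [Fintype.card_prod]
    set a := Fintype.card C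
    set b := Fintype.card D
    set F := full S (fun k (q : C × D) => x k q.1 * y q.1 k q.2) (c, d)
    set f := full S x c
    have h5 : f ≤ b * F + (b - 1) * (m + 1) := h2.trans (by
      have := Nat.mul_le_mul_left b h4
      omega)
    have h6 : S.card ≤ a * (b * F + (b - 1) * (m + 1)) + (a - 1) * (m + 1) := by
      have := Nat.mul_le_mul_left a h5
      omega
    refine h6.trans (le_of_eq ?_)
    obtain ⟨a', ha⟩ : ∃ a', a = a' + 1 := ⟨a - 1, by omega⟩
    obtain ⟨b', hb⟩ : ∃ b', b = b' + 1 := ⟨b - 1, by omega⟩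
    rw [ha, hb]
    simp only [Nat.add_sub_cancel]
    have : (a' + 1) * (b' + 1) - 1 = a' + (a' + 1) * b' := by
      have : (a' + 1) * (b' + 1) = a' + (a' + 1) * b' + 1 := by ring
      omega
    rw [this]
    ring

/-- **The fractional theorem** for every number of children. -/
theorem LP_all (r : ℕ) (hr : 0 < r) : LP (Fin r) := by
  induction r using Nat.strong_induction_on with
  | _ r ih =>
    rcases Nat.lt_or_ge r 2 with h | h
    · exact LP_one (Fin r) (by rw [Fintype.card_fin]; omega)
    · have hp : (Nat.minFac r).Prime := Nat.minFac_prime (by omega)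
      obtain ⟨s, hs⟩ := Nat.minFac_dvd r
      have hfact : Fact (Nat.minFac r).Prime := ⟨hp⟩
      have hs0 : 0 < s := by
        rcases Nat.eq_zero_or_pos s with h0 | h0
        · rw [h0, mul_zero] at hs; omega
        · exact h0
      have hslt : s < r := by
        have h2 := hp.two_le
        calc s < 2 * s := by omega
          _ ≤ Nat.minFac r * s := Nat.mul_le_mul_right s h2
          _ = r := hs.symm
      have h1 := ih s hslt hs0
      have h2 := LP_prime (Nat.minFac r)
      have : Nonempty (Fin s) := ⟨⟨0, hs0⟩⟩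
      have h3 := LP_prod h2 h1
      apply LP_equiv _ h3
      apply Fintype.equivFinOfCardEq
      rw [Fintype.card_prod, ZMod.card, Fintype.card_fin]
      exact hs.symm

end Q151.Cookie
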