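import Mathlib

/-!
Generic families of functionals.
-/

set_option autoImplicit false

namespace Q151.Cookie

open Module

theorem exists_avoid {A : Type*} [AddCommGroup A] [Module ℝ A] {ι : Type*} [Finite ι]
    (Z : ι → Submodule ℝ A) (hZ : ∀ i, Z i ≠ ⊤) : ∃ a : A, ∀ i, a ∉ Z i := by
  classical
  have := Fintype.ofFinite ι
  have h1 : (⋃ q ∈ (Finset.univ.image Z), (q : Set A)) ≠ Set.univ := by
    apply Subspace.biUnion_ne_univ_of_top_notMem
    intro h
    obtain ⟨i, -, hi⟩ := Finset.mem_image.1 h
    exact hZ i hi
  obtain ⟨a, ha⟩ := (Set.ne_univ_iff_exists_notMem _).mp h1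
  refine ⟨a, fun i hi => ha ?_⟩
  simp only [Set.mem_iUnion]
  exact ⟨Z i, Finset.mem_image_of_mem Z (Finset.mem_univ i), hi⟩

/-- generic choice: independent images under finitely many families of surjections -/
theorem exists_generic {A : Type*} [AddCommGroup A] [Module ℝ A] {Q : Type*} [Finite Q]
    (W : Q → Type*) [∀ q, AddCommGroup (W q)] [∀ q, Module ℝ (W q)]
    [∀ q, FiniteDimensional ℝ (W q)] (N : ℕ) (hW : ∀ q, N ≤ finrank ℝ (W q))
    (φ : ∀ q, ℕ → A →ₗ[ℝ] W q) (hφ : ∀ q i, i < N → Function.Surjective (φ q i)) :
    ∀ s ≤ N, ∃ a : ℕ → A, ∀ q, LinearIndependent ℝ (fun i : Fin s => φ q i (a i)) := by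
  intro s
  induction s with
  | zero =>
    intro _
    exact ⟨fun _ => 0, fun q => linearIndependent_empty_type⟩
  | succ s ih =>
    intro hs
    obtain ⟨a, ha⟩ := ih (by omega)
    obtain ⟨e, he⟩ := exists_avoid
      (fun q => (Submodule.span ℝ (Set.range fun i : Fin s => φ q i (a i))).comap (φ q s)) (by
        intro q htop
        have h1 : Submodule.span ℝ (Set.range fun i : Fin s => φ q i (a i)) = ⊤ := by
          rw [eq_top_iff]
          intro w _
          obtain ⟨b, rfl⟩ := hφ q s (by omega) w
          have : b ∈ (Submodule.span ℝ (Set.range fun i : Fin s => φ q i (a i))).comap (φ q s) := by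
            rw [htop]; trivial
          exact this
        have h2 := finrank_range_le_card (R := ℝ) (fun i : Fin s => φ q i (a i))
        have h3 : finrank ℝ (W q) ≤ s := by
          rw [Set.finrank, h1, finrank_top, Fintype.card_fin] at h2
          exact h2
        have := hW q
        omega)
    refine ⟨Function.update a s e, fun q => ?_⟩
    rw [linearIndependent_finSucc']
    have e1 : Fin.init (fun i : Fin (s + 1) => φ q i (Function.update a s e i)) =
        fun i : Fin s => φ q i (a i) := by
      funext i
      simp only [Fin.init, Fin.val_castSucc]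
      rw [Function.update_of_ne]
      exact i.isLt.ne
    rw [e1]
    refine ⟨ha q, ?_⟩
    simp only [Fin.val_last, Function.update_self]
    exact he q

end Q151.Cookie
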