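import Pool.Agent.Helper133.BULib

/-!
Proportional partitions for finitely many finite measures without atoms on the unit interval.
-/

set_option autoImplicit false

namespace Q151.Cookie

open Finset MeasureTheory Filter Topology

/-- partial sums of absolute values -/
noncomputable def cutp {m : ℕ} (x : Fin (m + 1) → ℝ) (l : ℕ) : ℝ :=
  ∑ j : Fin (m + 1), if (j : ℕ) < l then |x j| else 0

theorem cutp_cont {m : ℕ} (l : ℕ) : Continuous (fun x : Fin (m + 1) → ℝ => cutp x l) := by
  unfold cutp
  refine continuous_finsetSum _ fun j _ => ?_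
  by_cases hj : (j : ℕ) < l
  · simp only [hj, if_true]; fun_prop
  · simp only [hj, if_false]; exact continuous_const

theorem cutp_neg {m : ℕ} (x : Fin (m + 1) → ℝ) (l : ℕ) : cutp (-x) l = cutp x l := by
  unfold cutp
  simp

theorem cutp_zero {m : ℕ} (x : Fin (m + 1) → ℝ) : cutp x 0 = 0 := by
  unfold cutp; simp

theorem cutp_succ {m : ℕ} (x : Fin (m + 1) → ℝ) (l : Fin (m + 1)) :
    cutp x ((l : ℕ) + 1) = cutp x l + |x l| := by
  unfold cutp
  rw [← Finset.sum_erase_add _ _ (Finset.mem_univ l), ← Finset.sum_erase_add _ _ (Finset.mem_univ l)]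
  simp only [Nat.lt_succ_self, if_true, lt_irrefl, if_false, add_zero]
  congr 1
  refine Finset.sum_congr rfl fun j hj => ?_
  have hne : (j : ℕ) ≠ l := fun h => (Finset.mem_erase.1 hj).1 (Fin.ext h)
  by_cases h : (j : ℕ) < l
  · rw [if_pos h, if_pos (by omega)]
  · rw [if_neg h, if_neg (by omega)]

theorem cutp_top {m : ℕ} (x : Fin (m + 1) → ℝ) : cutp x (m + 1) = ∑ j, |x j| := by
  unfold cutp
  refine Finset.sum_congr rfl fun j _ => ?_
  rw [if_pos j.isLt]

theorem cutp_mono {m : ℕ} (x : Fin (m + 1) → ℝ) {a b : ℕ} (h : a ≤ b) : cutp x a ≤ cutp x b := by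
  unfold cutp
  apply Finset.sum_le_sum
  intro j _
  by_cases h1 : (j : ℕ) < a
  · rw [if_pos h1, if_pos (by omega)]
  · rw [if_neg h1]
    split_ifs
    · exact abs_nonneg _
    · exact le_rfl

/-- halving on the line -/
theorem halve_line {m : ℕ} (ν : Fin m → Measure ℝ) [∀ j, IsFiniteMeasure (ν j)]
    [∀ j, NullSingletonClass (ν j)] (hsupp : ∀ j, ν j (Set.Ioc 0 1)ᶜ = 0) :
    ∃ A : Set ℝ, MeasurableSet A ∧ ∀ j, 2 * (ν j A).toReal = (ν j Set.univ).toReal := by
  classical
  set G : Fin m → ℝ → ℝ := fun j t => ∫ _ in (0 : ℝ)..t, (1 : ℝ) ∂(ν j) with hG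
  have Gcont : ∀ j, Continuous (G j) := fun j =>
    intervalIntegral.continuous_primitive (fun a b => intervalIntegrable_const) 0
  have Gsub : ∀ j s t, s ≤ t → G j t - G j s = (ν j (Set.Ioc s t)).toReal := by
    intro j s t hst
    simp only [hG]
    rw [intervalIntegral.integral_interval_sub_left intervalIntegrable_const
      intervalIntegrable_const, intervalIntegral.integral_of_le hst]
    simp [Measure.real]
  obtain ⟨x, hx, hf⟩ := Pool.Agent.Helper133.BU.borsuk_ulam m
    (fun x j => ∑ l : Fin (m + 1), (G j (cutp x l + max (x l) 0) - G j (cutp x l + max (-(x l)) 0)))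
    (continuous_pi fun j => continuous_finsetSum _ fun l _ =>
      ((Gcont j).comp ((cutp_cont l).add ((continuous_apply l).max continuous_const))).sub
      ((Gcont j).comp ((cutp_cont l).add ((continuous_apply l).neg.max continuous_const))))
    (fun x => by
      funext j
      simp only [Pi.neg_apply, cutp_neg, neg_neg]
      rw [← Finset.sum_neg_distrib]
      exact Finset.sum_congr rfl fun l _ => by ring)
  have hx1 : ∑ l, |x l| = 1 := hx
  have hf' : ∀ j, ∑ l : Fin (m + 1), (G j (cutp x l + max (x l) 0) -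
      G j (cutp x l + max (-(x l)) 0)) = 0 := fun j => congrFun hf j
  set I : Fin (m + 1) → Set ℝ := fun l => Set.Ioc (cutp x l) (cutp x ((l : ℕ) + 1)) with hI
  have hterm : ∀ j (l : Fin (m + 1)), G j (cutp x l + max (x l) 0) -
      G j (cutp x l + max (-(x l)) 0) =
      2 * (if 0 < x l then (ν j (I l)).toReal else 0) - (ν j (I l)).toReal := by
    intro j l
    have hIl : (ν j (I l)).toReal = G j (cutp x l + |x l|) - G j (cutp x l) := by
      rw [Gsub j _ _ (by linarith [abs_nonneg (x l)])]
      show (ν j (Set.Ioc (cutp x l) (cutp x ((l : ℕ) + 1)))).toReal = _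
      rw [cutp_succ]
    rcases lt_trichotomy (x l) 0 with h | h | h
    · rw [if_neg (by linarith), max_eq_right h.le, max_eq_left (by linarith), hIl, abs_of_neg h,
        add_zero]
      ring
    · rw [if_neg (by linarith), hIl, h]
      simp
    · rw [if_pos h, max_eq_left h.le, max_eq_right (by linarith), hIl, abs_of_pos h, add_zero]
      ring
  have htot : ∀ j, ∑ l : Fin (m + 1), (ν j (I l)).toReal = (ν j Set.univ).toReal := by
    intro j
    have h1 : ∀ l : Fin (m + 1), (ν j (I l)).toReal = G j (cutp x ((l : ℕ) + 1)) - G j (cutp x l) := by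
      intro l
      rw [Gsub j _ _ (cutp_mono x (Nat.le_succ _))]
    rw [Finset.sum_congr rfl fun l _ => h1 l,
      Fin.sum_univ_eq_sum_range (fun l => G j (cutp x (l + 1)) - G j (cutp x l)) (m + 1),
      Finset.sum_range_sub (fun l => G j (cutp x l)), cutp_top, hx1, cutp_zero,
      Gsub j 0 1 zero_le_one]
    congr 1
    have h2 : ν j (Set.Ioc 0 1) + ν j (Set.Ioc 0 1)ᶜ = ν j Set.univ :=
      measure_add_measure_compl measurableSet_Ioc
    rw [hsupp, add_zero] at h2
    exact h2
  refine ⟨⋃ l ∈ (Finset.univ.filter fun l : Fin (m + 1) => 0 < x l), I l,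
    Finset.measurableSet_biUnion _ fun l _ => measurableSet_Ioc, fun j => ?_⟩
  have hdisj : ∀ l l' : Fin (m + 1), l < l' → Disjoint (I l) (I l') := by
    intro l l' h
    rw [Set.disjoint_left]
    intro t h1 h2
    have h3 : cutp x ((l : ℕ) + 1) ≤ cutp x l' := cutp_mono x (by have := Fin.lt_def.1 h; omega)
    have h4 := h1.2
    have h5 := h2.1
    linarith
  rw [measure_biUnion_finset _ (fun l _ => measurableSet_Ioc)]
  · rw [ENNReal.toReal_sum (fun l _ => measure_ne_top _ _), Finset.sum_filter]
    have h1 := hf' j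
    rw [Finset.sum_congr rfl fun l _ => hterm j l, Finset.sum_sub_distrib, ← Finset.mul_sum,
      htot] at h1
    linarith
  · intro l _ l' _ hne
    rcases lt_or_gt_of_ne hne with h | h
    · exact hdisj l l' h
    · exact (hdisj l' l h).symm

/-- halving inside a measurable subset of the unit interval -/
theorem halve {m : ℕ} (μ : Fin m → Measure unitInterval) [∀ j, IsFiniteMeasure (μ j)]
    [∀ j, NullSingletonClass (μ j)] (E : Set unitInterval) (hE : MeasurableSet E) :
    ∃ A : Set unitInterval, MeasurableSet A ∧ A ⊆ E ∧ ∀ j, 2 * (μ j A).toReal = (μ j E).toReal := by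
  have hval : Measurable (Subtype.val : unitInterval → ℝ) := measurable_subtype_coe
  let ν : Fin m → Measure ℝ := fun j => ((μ j).restrict E).map Subtype.val
  have hν : ∀ j (B : Set ℝ), MeasurableSet B → ν j B = μ j (Subtype.val ⁻¹' B ∩ E) := by
    intro j B hB
    show ((μ j).restrict E).map Subtype.val B = _
    rw [Measure.map_apply hval hB, Measure.restrict_apply (hval hB)]
  have hfin : ∀ j, IsFiniteMeasure (ν j) := fun j => by
    show IsFiniteMeasure (((μ j).restrict E).map Subtype.val)
    infer_instance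
  have hna : ∀ j, NullSingletonClass (ν j) := by
    intro j
    refine ⟨fun t => ?_⟩
    rw [hν j _ (measurableSet_singleton t)]
    refine measure_mono_null Set.inter_subset_left ?_
    have : (Subtype.val ⁻¹' {t} : Set unitInterval).Subsingleton := by
      intro a ha b hb
      exact Subtype.ext ((show (a : ℝ) = t from ha).trans (show (b : ℝ) = t from hb).symm)
    exact this.measure_zero (μ j)
  obtain ⟨A, hA, h⟩ := halve_line ν (by
    intro j
    rw [hν j _ measurableSet_Ioc.compl]
    refine measure_mono_null (t := {(0 : unitInterval)}) ?_ (measure_singleton _)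
    intro y hy
    have h1 : ¬ ((0 : ℝ) < y ∧ (y : ℝ) ≤ 1) := hy.1
    have h2 := y.2.1
    have h3 := y.2.2
    have : (y : ℝ) = 0 := by
      by_contra hne
      exact h1 ⟨lt_of_le_of_ne h2 (Ne.symm hne), h3⟩
    exact Subtype.ext this)
  refine ⟨Subtype.val ⁻¹' A ∩ E, (hval hA).inter hE, Set.inter_subset_right, fun j => ?_⟩
  have h1 := h j
  rw [hν j _ hA, hν j _ MeasurableSet.univ, Set.preimage_univ, Set.univ_inter] at h1
  exact h1

section prop

variable {X : Type*} [MeasurableSpace X] {m : ℕ} (μ : Fin m → Measure X)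

/-- a chosen half -/
noncomputable def hf (H : ∀ E : Set X, MeasurableSet E → ∃ A, MeasurableSet A ∧ A ⊆ E ∧
    ∀ j, 2 * (μ j A).toReal = (μ j E).toReal) (R : Set X) : Set X := by
  classical exact if h : MeasurableSet R then (H R h).choose else ∅

theorem hf_spec (H : ∀ E : Set X, MeasurableSet E → ∃ A, MeasurableSet A ∧ A ⊆ E ∧
    ∀ j, 2 * (μ j A).toReal = (μ j E).toReal) {R : Set X} (h : MeasurableSet R) :
    MeasurableSet (hf μ H R) ∧ hf μ H R ⊆ R ∧ ∀ j, 2 * (μ j (hf μ H R)).toReal = (μ j R).toReal := by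
  unfold hf
  rw [dif_pos h]
  exact (H R h).choose_spec

/-- the approximating sequence -/
noncomputable def sq (H : ∀ E : Set X, MeasurableSet E → ∃ A, MeasurableSet A ∧ A ⊆ E ∧
    ∀ j, 2 * (μ j A).toReal = (μ j E).toReal) (E : Set X) (t : ℝ) : ℕ → Set X × Set X × ℝ
  | 0 => (∅, E, 0)
  | n + 1 =>
    if (sq H E t n).2.2 + (1 / 2) ^ (n + 1) ≤ t then
      ((sq H E t n).1 ∪ hf μ H (sq H E t n).2.1, (sq H E t n).2.1 \ hf μ H (sq H E t n).2.1,
        (sq H E t n).2.2 + (1 / 2) ^ (n + 1))
    else ((sq H E t n).1, hf μ H (sq H E t n).2.1, (sq H E t n).2.2)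

/-- Any proportion can be cut off. -/
theorem proportion [∀ j, IsFiniteMeasure (μ j)]
    (H : ∀ E : Set X, MeasurableSet E → ∃ A, MeasurableSet A ∧ A ⊆ E ∧
      ∀ j, 2 * (μ j A).toReal = (μ j E).toReal) (E : Set X) (hE : MeasurableSet E) (t : ℝ)
    (ht0 : 0 ≤ t) (ht1 : t ≤ 1) :
    ∃ A, MeasurableSet A ∧ A ⊆ E ∧ ∀ j, (μ j A).toReal = t * (μ j E).toReal := by
  set s := sq μ H E t with hs
  have inv : ∀ n, MeasurableSet (s n).1 ∧ MeasurableSet (s n).2.1 ∧ (s n).1 ⊆ E ∧ (s n).2.1 ⊆ E ∧
      Disjoint (s n).1 (s n).2.1 ∧ (s n).2.2 ≤ t ∧ t ≤ (s n).2.2 + (1 / 2) ^ n ∧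
      (∀ j, (μ j (s n).1).toReal = (s n).2.2 * (μ j E).toReal) ∧
      (∀ j, (μ j (s n).2.1).toReal = (1 / 2) ^ n * (μ j E).toReal) ∧ (s n).1 ⊆ (s (n + 1)).1 := by
    intro n
    have sub : ∀ n, (s n).1 ⊆ (s (n + 1)).1 := by
      intro n
      show (sq μ H E t n).1 ⊆ (sq μ H E t (n + 1)).1
      rw [sq]
      split_ifs
      · exact Set.subset_union_left
      · exact subset_rfl
    induction n with
    | zero =>
      refine ⟨MeasurableSet.empty, hE, Set.empty_subset _, subset_rfl, Set.disjoint_left.2 ?_, ht0,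
        ?_, fun j => ?_, fun j => ?_, sub 0⟩
      · intro a ha; exact absurd ha (Set.notMem_empty a)
      · show t ≤ 0 + (1 / 2) ^ 0
        simpa using ht1
      · show (μ j ∅).toReal = 0 * _
        simp
      · show (μ j E).toReal = (1 / 2) ^ 0 * _
        simp
    | succ n ih =>
      obtain ⟨i1, i2, i3, i4, i5, i6, i7, i8, i9, i10⟩ := ih
      obtain ⟨g1, g2, g3⟩ := hf_spec μ H i2
      by_cases hc : (s n).2.2 + (1 / 2) ^ (n + 1) ≤ t
      · have e : s (n + 1) = ((s n).1 ∪ hf μ H (s n).2.1, (s n).2.1 \ hf μ H (s n).2.1,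
            (s n).2.2 + (1 / 2) ^ (n + 1)) := by
          show sq μ H E t (n + 1) = _
          rw [sq, if_pos hc]
        have hd : Disjoint (s n).1 (hf μ H (s n).2.1) := i5.mono_right g2
        have hhalf : ∀ j, (μ j (hf μ H (s n).2.1)).toReal = (1 / 2) ^ (n + 1) * (μ j E).toReal := by
          intro j
          have h1 := g3 j
          rw [i9 j] at h1
          rw [pow_succ]; linarith
        refine ⟨?_, ?_, ?_, ?_, ?_, ?_, ?_, ?_, ?_, sub (n + 1)⟩
        · rw [e]; exact i1.union g1
        · rw [e]; exact i2.diff g1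
        · rw [e]; exact Set.union_subset i3 (g2.trans i4)
        · rw [e]; exact Set.sdiff_subset.trans i4
        · rw [e]
          rw [Set.disjoint_left]
          rintro a (ha | ha) ⟨hb1, hb2⟩
          · exact Set.disjoint_left.1 i5 ha hb1
          · exact hb2 ha
        · rw [e]; exact hc
        · rw [e]
          simp only
          have : (1 / 2 : ℝ) ^ n = (1 / 2) ^ (n + 1) + (1 / 2) ^ (n + 1) := by rw [pow_succ]; ring
          linarith
        · intro j
          rw [e]
          simp only
          rw [measure_union hd g1, ENNReal.toReal_add (measure_ne_top _ _) (measure_ne_top _ _),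
            i8 j, hhalf j]
          ring
        · intro j
          rw [e]
          simp only
          rw [measure_sdiff g2 g1.nullMeasurableSet (measure_ne_top _ _),
            ENNReal.toReal_sub_of_le (measure_mono g2) (measure_ne_top _ _), i9 j, hhalf j, pow_succ]
          ring
      · have e : s (n + 1) = ((s n).1, hf μ H (s n).2.1, (s n).2.2) := by
          show sq μ H E t (n + 1) = _
          rw [sq, if_neg hc]
        refine ⟨?_, ?_, ?_, ?_, ?_, ?_, ?_, ?_, ?_, sub (n + 1)⟩
        · rw [e]; exact i1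
        · rw [e]; exact g1
        · rw [e]; exact i3
        · rw [e]; exact g2.trans i4
        · rw [e]; exact i5.mono_right g2
        · rw [e]; exact i6
        · rw [e]
          push Not at hc
          exact hc.le
        · intro j; rw [e]; exact i8 j
        · intro j
          rw [e]
          simp only
          have h1 := g3 j
          rw [i9 j] at h1
          rw [pow_succ]; linarith
  refine ⟨⋃ n, (s n).1, MeasurableSet.iUnion fun n => (inv n).1, Set.iUnion_subset fun n =>
    (inv n).2.2.1, fun j => ?_⟩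
  have hmono : Monotone fun n => (s n).1 := monotone_nat_of_le_succ fun n => (inv n).2.2.2.2.2.2.2.2.2
  have h1 : Tendsto (fun n => μ j (s n).1) atTop (𝓝 (μ j (⋃ n, (s n).1))) :=
    tendsto_measure_iUnion_atTop hmono
  have h2 : Tendsto (fun n => (μ j (s n).1).toReal) atTop (𝓝 (μ j (⋃ n, (s n).1)).toReal) :=
    (ENNReal.tendsto_toReal (measure_ne_top _ _)).comp h1
  have h3 : Tendsto (fun n => (s n).2.2) atTop (𝓝 t) := by
    have h4 : Tendsto (fun n : ℕ => t - (1 / 2 : ℝ) ^ n) atTop (𝓝 (t - 0)) :=
      tendsto_const_nhds.sub (tendsto_pow_atTop_nhds_zero_of_lt_one (by norm_num) (by norm_num))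
    rw [sub_zero] at h4
    refine tendsto_of_tendsto_of_tendsto_of_le_of_le h4 tendsto_const_nhds ?_ ?_
    · intro n
      have := (inv n).2.2.2.2.2.2.1
      simp only
      linarith
    · intro n
      exact (inv n).2.2.2.2.2.1
  have h5 : Tendsto (fun n => (s n).2.2 * (μ j E).toReal) atTop (𝓝 (t * (μ j E).toReal)) :=
    h3.mul_const _
  have h6 : (fun n => (μ j (s n).1).toReal) = fun n => (s n).2.2 * (μ j E).toReal :=
    funext fun n => (inv n).2.2.2.2.2.2.2.1 j
  rw [h6] at h2
  exact tendsto_nhds_unique h2 h5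

/-- partitions with prescribed proportions -/
theorem partition [∀ j, IsFiniteMeasure (μ j)]
    (H : ∀ E : Set X, MeasurableSet E → ∃ A, MeasurableSet A ∧ A ⊆ E ∧
      ∀ j, 2 * (μ j A).toReal = (μ j E).toReal) (r : ℕ) :
    ∀ (E : Set X), MeasurableSet E → ∀ w : Fin r → ℝ, (∀ c, 0 ≤ w c) → 0 < ∑ c, w c →
    ∃ A : Fin r → Set X, (∀ c, MeasurableSet (A c)) ∧ (∀ c c', c ≠ c' → Disjoint (A c) (A c')) ∧
      (⋃ c, A c) = E ∧ ∀ j c, (μ j (A c)).toReal = w c / (∑ c, w c) * (μ j E).toReal := by
  induction r with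
  | zero => intro E _ w _ hw; simp at hw
  | succ r ih =>
    intro E hE w hw hW
    set W' := ∑ c : Fin r, w c.succ with hW'
    have hWe : ∑ c, w c = w 0 + W' := Fin.sum_univ_succ w
    have hW'0 : 0 ≤ W' := Finset.sum_nonneg fun c _ => hw _
    rcases hW'0.eq_or_lt with h0 | h0
    · -- everything to the first one
      have hz : ∀ c : Fin r, w c.succ = 0 := by
        intro c
        exact (Finset.sum_eq_zero_iff_of_nonneg (fun c _ => hw _)).1 h0.symm c (Finset.mem_univ c)
      have hw0 : 0 < w 0 := by rw [hWe, ← h0, add_zero] at hW; exact hW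
      refine ⟨fun c => Fin.cases E (fun _ => ∅) c, ?_, ?_, ?_, ?_⟩
      · intro c
        refine Fin.cases ?_ (fun c => ?_) c
        · exact hE
        · exact MeasurableSet.empty
      · intro c c'
        refine Fin.cases ?_ (fun c => ?_) c
        · refine Fin.cases ?_ (fun c' => ?_) c'
          · intro h; exact absurd rfl h
          · intro _; exact Set.disjoint_empty _
        · intro _; exact Set.empty_disjoint _
      · ext a
        simp only [Set.mem_iUnion]
        constructor
        · rintro ⟨c, hc⟩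
          revert hc
          refine Fin.cases ?_ (fun c => ?_) c
          · exact fun h => h
          · exact fun h => absurd h (Set.notMem_empty a)
        · intro h; exact ⟨0, h⟩
      · intro j c
        refine Fin.cases ?_ (fun c => ?_) c
        · simp only [Fin.cases_zero]
          rw [hWe, ← h0, add_zero, div_self hw0.ne', one_mul]
        · simp only [Fin.cases_succ]
          rw [hz c]; simp
    · have hw0 := hw 0
      obtain ⟨A0, hA0, hA0E, hA0m⟩ := proportion μ H E hE (w 0 / ∑ c, w c) (by positivity) (by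
        rw [div_le_one hW, hWe]; linarith)
      obtain ⟨A, hA1, hA2, hA3, hA4⟩ := ih (E \ A0) (hE.diff hA0) (fun c => w c.succ)
        (fun c => hw _) h0
      refine ⟨fun c => Fin.cases A0 A c, ?_, ?_, ?_, ?_⟩
      · intro c
        refine Fin.cases ?_ (fun c => ?_) c
        · exact hA0
        · exact hA1 c
      · have hd : ∀ c, Disjoint A0 (A c) := by
          intro c
          rw [Set.disjoint_left]
          intro a ha hb
          have : a ∈ E \ A0 := by rw [← hA3]; exact Set.mem_iUnion.2 ⟨c, hb⟩
          exact this.2 ha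
        intro c c'
        refine Fin.cases ?_ (fun c => ?_) c
        · refine Fin.cases ?_ (fun c' => ?_) c'
          · intro h; exact absurd rfl h
          · intro _; exact hd c'
        · refine Fin.cases ?_ (fun c' => ?_) c'
          · intro _; exact (hd c).symm
          · intro h; exact hA2 c c' (fun h' => h (by rw [h']))
      · ext a
        simp only [Set.mem_iUnion]
        constructor
        · rintro ⟨c, hc⟩
          revert hc
          refine Fin.cases ?_ (fun c => ?_) c
          · exact fun h => hA0E h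
          · intro h
            have : a ∈ E \ A0 := by rw [← hA3]; exact Set.mem_iUnion.2 ⟨c, h⟩
            exact this.1
        · intro h
          by_cases ha : a ∈ A0
          · exact ⟨0, ha⟩
          · have : a ∈ ⋃ c, A c := by rw [hA3]; exact ⟨h, ha⟩
            obtain ⟨c, hc⟩ := Set.mem_iUnion.1 this
            exact ⟨c.succ, hc⟩
      · intro j c
        have hdiff : (μ j (E \ A0)).toReal = W' / (∑ c, w c) * (μ j E).toReal := by
          rw [measure_sdiff hA0E hA0.nullMeasurableSet (measure_ne_top _ _),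
            ENNReal.toReal_sub_of_le (measure_mono hA0E) (measure_ne_top _ _), hA0m j]
          have : W' = ∑ c, w c - w 0 := by rw [hWe]; ring
          rw [this]
          field_simp
        refine Fin.cases ?_ (fun c => ?_) c
        · exact hA0m j
        · simp only [Fin.cases_succ]
          rw [hA4 j c, hdiff, ← hW']
          field_simp

end prop

/-- proportional partitions of the unit interval -/
theorem unit_partition {m r : ℕ} (μ : Fin m → Measure unitInterval) [∀ j, IsFiniteMeasure (μ j)]
    [∀ j, NullSingletonClass (μ j)] (w : Fin r → ℝ) (hw : ∀ c, 0 ≤ w c) (hW : ∑ c, w c = 1) :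
    ∃ A : Fin r → Set unitInterval, (∀ c, MeasurableSet (A c)) ∧
      (∀ c c', c ≠ c' → Disjoint (A c) (A c')) ∧ (⋃ c, A c) = Set.univ ∧
      ∀ j c, (μ j (A c)).toReal = w c * (μ j Set.univ).toReal := by
  obtain ⟨A, h1, h2, h3, h4⟩ := partition μ (halve μ) r Set.univ MeasurableSet.univ w hw
    (by rw [hW]; norm_num)
  refine ⟨A, h1, h2, h3, fun j c => ?_⟩
  rw [h4, hW, div_one]

end Q151.Cookie
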