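import Pool.Agent.Q151.Cookie.ZBU
import Pool.Agent.Q151.Cookie.Gen

/-!
The polytope of fair fractional allocations.
-/

set_option autoImplicit false

namespace Q151.Cookie

open Finset Module

variable {K : Type} [Fintype K] [DecidableEq K] {C : Type} [Fintype C] [DecidableEq C] {m : ℕ}

/-- fair fractional allocations -/
def PP (C : Type) [Fintype C] (v : K → Fin m → ℝ) : Set (K → C → ℝ) :=
  {x | (∀ k c, 0 ≤ x k c) ∧ (∀ k, ∑ c, x k c = 1) ∧
    ∀ c j, ∑ k, x k c * v k j = (∑ k, v k j) / Fintype.card C}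

theorem PP_le_one {v : K → Fin m → ℝ} {x : K → C → ℝ} (hx : x ∈ PP C v) (k : K) (c : C) :
    x k c ≤ 1 := by
  rw [← hx.2.1 k]
  exact Finset.single_le_sum (fun i _ => hx.1 k i) (Finset.mem_univ c)

theorem PP_convex (v : K → Fin m → ℝ) : Convex ℝ (PP C v) := by
  intro x hx y hy a b ha hb hab
  refine ⟨fun k c => ?_, fun k => ?_, fun c j => ?_⟩
  · have := hx.1 k c
    have := hy.1 k c
    simp only [Pi.add_apply, Pi.smul_apply, smul_eq_mul]
    positivity
  · simp only [Pi.add_apply, Pi.smul_apply, smul_eq_mul, Finset.sum_add_distrib, ← Finset.mul_sum]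
    rw [hx.2.1, hy.2.1]; linarith
  · simp only [Pi.add_apply, Pi.smul_apply, smul_eq_mul, add_mul, Finset.sum_add_distrib, mul_assoc,
      ← Finset.mul_sum]
    rw [hx.2.2, hy.2.2, ← add_mul, hab, one_mul]

theorem PP_compact (v : K → Fin m → ℝ) : IsCompact (PP C v) := by
  refine IsCompact.of_isClosed_subset (isCompact_Icc (a := (0 : K → C → ℝ)) (b := 1)) ?_ ?_
  · have e : PP C v = (⋂ k, ⋂ c, {x : K → C → ℝ | 0 ≤ x k c}) ∩
        ((⋂ k, {x : K → C → ℝ | ∑ c, x k c = 1}) ∩
        ⋂ c, ⋂ j, {x : K → C → ℝ | ∑ k, x k c * v k j = (∑ k, v k j) / Fintype.card C}) := by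
      ext x
      simp only [PP, Set.mem_ofPred_eq, Set.mem_inter_iff, Set.mem_iInter]
    rw [e]
    have hc : ∀ k c, Continuous fun x : K → C → ℝ => x k c := fun k c => by fun_prop
    refine IsClosed.inter (isClosed_iInter fun k => isClosed_iInter fun c =>
      isClosed_le continuous_const (hc k c)) (IsClosed.inter ?_ ?_)
    · exact isClosed_iInter fun k => isClosed_eq (by fun_prop) continuous_const
    · exact isClosed_iInter fun c => isClosed_iInter fun j => isClosed_eq (by fun_prop) continuous_const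
  · intro x hx
    refine ⟨fun k c => hx.1 k c, fun k c => PP_le_one hx k c⟩

theorem PP_nonempty [Nonempty C] (v : K → Fin m → ℝ) : (PP C v).Nonempty := by
  have hC : (Fintype.card C : ℝ) ≠ 0 := by exact_mod_cast Fintype.card_ne_zero
  refine ⟨fun _ _ => 1 / Fintype.card C, fun k c => by positivity, fun k => ?_, fun c j => ?_⟩
  · rw [Finset.sum_const, Finset.card_univ, nsmul_eq_mul]; field_simp
  · rw [← Finset.mul_sum]; ring

/-- directions supported in `T` that keep all constraints -/
def DD (v : K → Fin m → ℝ) (T : K → Finset C) : Submodule ℝ (K → C → ℝ) where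
  carrier := {z | (∀ k c, c ∉ T k → z k c = 0) ∧ (∀ k, ∑ c, z k c = 0) ∧
    ∀ c j, ∑ k, z k c * v k j = 0}
  zero_mem' := by simp
  add_mem' := by
    rintro x y ⟨h1, h2, h3⟩ ⟨g1, g2, g3⟩
    refine ⟨fun k c hc => ?_, fun k => ?_, fun c j => ?_⟩
    · simp [h1 k c hc, g1 k c hc]
    · simp only [Pi.add_apply, Finset.sum_add_distrib, h2, g2, add_zero]
    · simp only [Pi.add_apply, add_mul, Finset.sum_add_distrib, h3, g3, add_zero]
  smul_mem' := by
    rintro a x ⟨h1, h2, h3⟩
    refine ⟨fun k c hc => ?_, fun k => ?_, fun c j => ?_⟩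
    · simp [h1 k c hc]
    · simp only [Pi.smul_apply, smul_eq_mul, ← Finset.mul_sum, h2, mul_zero]
    · simp only [Pi.smul_apply, smul_eq_mul, mul_assoc, ← Finset.mul_sum, h3, mul_zero]

theorem mem_DD {v : K → Fin m → ℝ} {T : K → Finset C} {z : K → C → ℝ} :
    z ∈ DD v T ↔ (∀ k c, c ∉ T k → z k c = 0) ∧ (∀ k, ∑ c, z k c = 0) ∧
    ∀ c j, ∑ k, z k c * v k j = 0 := Iff.rfl

/-- small steps in an allowed direction stay in the polytope -/
theorem step_mem {v : K → Fin m → ℝ} {x : K → C → ℝ} (hx : x ∈ PP C v) {z : K → C → ℝ}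
    (hz : z ∈ DD v (fun k => Finset.univ.filter fun c => x k c ≠ 0)) :
    ∃ ε : ℝ, 0 < ε ∧ ∀ t : ℝ, |t| ≤ ε → x + t • z ∈ PP C v := by
  obtain ⟨h1, h2, h3⟩ := mem_DD.1 hz
  -- bound for the entries
  obtain ⟨B, hB0, hB⟩ : ∃ B : ℝ, 0 < B ∧ ∀ k c, |z k c| ≤ B := by
    refine ⟨∑ k, ∑ c, |z k c| + 1, by positivity, fun k c => ?_⟩
    have e1 : |z k c| ≤ ∑ c, |z k c| :=
      Finset.single_le_sum (f := fun c => |z k c|) (fun _ _ => abs_nonneg _) (Finset.mem_univ c)
    have e2 : ∑ c, |z k c| ≤ ∑ k, ∑ c, |z k c| :=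
      Finset.single_le_sum (f := fun k => ∑ c, |z k c|)
        (fun _ _ => Finset.sum_nonneg fun _ _ => abs_nonneg _) (Finset.mem_univ k)
    linarith
  obtain ⟨η, hη0, hη⟩ : ∃ η : ℝ, 0 < η ∧ ∀ k c, x k c ≠ 0 → η ≤ x k c := by
    set S : Finset (K × C) := Finset.univ.filter fun q => x q.1 q.2 ≠ 0 with hS
    rcases S.eq_empty_or_nonempty with he | hne
    · refine ⟨1, one_pos, fun k c h => ?_⟩
      have : (k, c) ∈ S := Finset.mem_filter.2 ⟨Finset.mem_univ _, h⟩
      rw [he] at this
      simp at this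
    · obtain ⟨q, hq, hmin⟩ := S.exists_min_image (fun q => x q.1 q.2) hne
      refine ⟨x q.1 q.2, lt_of_le_of_ne (hx.1 _ _) (Ne.symm (Finset.mem_filter.1 hq).2),
        fun k c h => ?_⟩
      exact hmin (k, c) (Finset.mem_filter.2 ⟨Finset.mem_univ _, h⟩)
  refine ⟨η / B, by positivity, fun t ht => ⟨fun k c => ?_, fun k => ?_, fun c j => ?_⟩⟩
  · simp only [Pi.add_apply, Pi.smul_apply, smul_eq_mul]
    by_cases hxc : x k c = 0
    · rw [hxc, h1 k c (by simp [hxc])]; simp
    · have e1 := hη k c hxc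
      have e2 : |t * z k c| ≤ η := by
        rw [abs_mul]
        calc |t| * |z k c| ≤ (η / B) * B := mul_le_mul ht (hB k c) (abs_nonneg _) (by positivity)
          _ = η := by field_simp
      have e3 := neg_abs_le (t * z k c)
      linarith
  · simp only [Pi.add_apply, Pi.smul_apply, smul_eq_mul, Finset.sum_add_distrib, ← Finset.mul_sum,
      h2, mul_zero, add_zero]
    exact hx.2.1 k
  · simp only [Pi.add_apply, Pi.smul_apply, smul_eq_mul, add_mul, Finset.sum_add_distrib, mul_assoc,
      ← Finset.mul_sum, h3, mul_zero, add_zero]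
    exact hx.2.2 c j

/-- extreme points have no allowed direction -/
theorem extreme_DD {v : K → Fin m → ℝ} {x : K → C → ℝ} (hx : x ∈ Set.extremePoints ℝ (PP C v))
    {z : K → C → ℝ} (hz : z ∈ DD v (fun k => Finset.univ.filter fun c => x k c ≠ 0)) : z = 0 := by
  obtain ⟨ε, hε, h⟩ := step_mem hx.1 hz
  have h1 := h ε (by rw [abs_of_pos hε])
  have h2 := h (-ε) (by rw [abs_neg, abs_of_pos hε])
  have hseg : x ∈ openSegment ℝ (x + ε • z) (x + (-ε) • z) := by
    refine ⟨1 / 2, 1 / 2, by norm_num, by norm_num, by norm_num, ?_⟩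
    funext k c
    simp only [Pi.add_apply, Pi.smul_apply, smul_eq_mul]
    ring
  have h3 := hx.2 h1 h2 hseg
  have h4 : ε • z = 0 := by
    have : x + ε • z = x := h3
    simpa using this
  exact (smul_eq_zero.1 h4).resolve_left hε.ne'

/-- an extreme point is determined by its support -/
theorem extreme_unique {v : K → Fin m → ℝ} {x y : K → C → ℝ}
    (hx : x ∈ Set.extremePoints ℝ (PP C v)) (hy : y ∈ PP C v)
    (h : ∀ k c, x k c = 0 → y k c = 0) : y = x := by
  have : y - x = 0 := by
    apply extreme_DD hx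
    refine mem_DD.2 ⟨fun k c hc => ?_, fun k => ?_, fun c j => ?_⟩
    · have hxc : x k c = 0 := by simpa using hc
      simp [hxc, h k c hxc]
    · simp only [Pi.sub_apply, Finset.sum_sub_distrib]
      rw [hy.2.1, hx.1.2.1, sub_self]
    · simp only [Pi.sub_apply, sub_mul, Finset.sum_sub_distrib]
      rw [hy.2.2, hx.1.2.2, sub_self]
  exact sub_eq_zero.1 this

theorem extreme_finite (v : K → Fin m → ℝ) : (Set.extremePoints ℝ (PP C v)).Finite := by
  have : Set.InjOn (fun x : K → C → ℝ => fun k => Finset.univ.filter fun c => x k c ≠ 0)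
      (Set.extremePoints ℝ (PP C v)) := by
    intro x hx y hy h
    symm
    apply extreme_unique hx hy.1
    intro k c hxc
    have h1 := congrFun h k
    have h2 : c ∉ (Finset.univ.filter fun c => x k c ≠ 0) := by simp [hxc]
    simp only at h1
    rw [h1] at h2
    simpa using h2
  exact Set.Finite.of_finite_image (Set.toFinite _) this

/-- dimension bound -/
theorem DD_dim [Nonempty C] (v : K → Fin m → ℝ) (T : K → Finset C) :
    (Finset.univ.filter fun k => 2 ≤ (T k).card).card ≤
      finrank ℝ (DD v T) + (Fintype.card C - 1) * m := by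
  classical
  obtain ⟨c0⟩ := ‹Nonempty C›
  -- two children for every cookie with at least two
  have hab : ∀ k : {k // 2 ≤ (T k).card}, ∃ a b, a ∈ T k.1 ∧ b ∈ T k.1 ∧ a ≠ b := by
    intro k
    obtain ⟨a, ha, b, hb, hne⟩ := Finset.one_lt_card.1 (show 1 < (T k.1).card from k.2)
    exact ⟨a, b, ha, hb, hne⟩
  choose a b ha hb hne using hab
  let ι : ({k // 2 ≤ (T k).card} → ℝ) →ₗ[ℝ] (K → C → ℝ) :=
    { toFun := fun w k c => if h : 2 ≤ (T k).card then
        w ⟨k, h⟩ * ((if c = a ⟨k, h⟩ then 1 else 0) - (if c = b ⟨k, h⟩ then 1 else 0)) else 0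
      map_add' := by
        intro w w'
        funext k c
        by_cases h : 2 ≤ (T k).card
        · simp only [h, dif_pos, Pi.add_apply]; ring
        · simp [h]
      map_smul' := by
        intro r w
        funext k c
        by_cases h : 2 ≤ (T k).card
        · simp only [h, dif_pos, Pi.smul_apply, smul_eq_mul, RingHom.id_apply]; ring
        · simp [h] }
  have ι_apply : ∀ w k c, ι w k c = if h : 2 ≤ (T k).card then
      w ⟨k, h⟩ * ((if c = a ⟨k, h⟩ then 1 else 0) - (if c = b ⟨k, h⟩ then 1 else 0)) else 0 :=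
    fun w k c => rfl
  have ι_inj : Function.Injective ι := by
    intro w w' h
    funext k
    have h1 := congrFun (congrFun h k.1) (a k)
    rw [ι_apply, ι_apply, dif_pos k.2, dif_pos k.2] at h1
    have h2 : (⟨k.1, k.2⟩ : {k // 2 ≤ (T k).card}) = k := rfl
    rw [h2, if_pos rfl, if_neg (hne k)] at h1
    linarith
  have ι_row : ∀ w k, ∑ c, ι w k c = 0 := by
    intro w k
    by_cases h : 2 ≤ (T k).card
    · simp only [ι_apply, dif_pos h, ← Finset.mul_sum, Finset.sum_sub_distrib]
      simp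
    · simp only [ι_apply, dif_neg h, Finset.sum_const_zero]
  have ι_supp : ∀ w k c, c ∉ T k → ι w k c = 0 := by
    intro w k c hc
    rw [ι_apply]
    by_cases h : 2 ≤ (T k).card
    · rw [dif_pos h]
      have h1 : c ≠ a ⟨k, h⟩ := by rintro rfl; exact hc (ha ⟨k, h⟩)
      have h2 : c ≠ b ⟨k, h⟩ := by rintro rfl; exact hc (hb ⟨k, h⟩)
      rw [if_neg h1, if_neg h2]; ring
    · rw [dif_neg h]
  let Φ : ({k // 2 ≤ (T k).card} → ℝ) →ₗ[ℝ] ({c : C // c ≠ c0} → Fin m → ℝ) :=
    { toFun := fun w c j => ∑ k, ι w k c.1 * v k j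
      map_add' := by
        intro w w'
        funext c j
        simp only [map_add, Pi.add_apply, add_mul, Finset.sum_add_distrib]
      map_smul' := by
        intro r w
        funext c j
        simp only [map_smul, Pi.smul_apply, smul_eq_mul, mul_assoc, Finset.mul_sum,
          RingHom.id_apply] }
  have hker : ∀ w ∈ LinearMap.ker Φ, ι w ∈ DD v T := by
    intro w hw
    have hw' : ∀ c : C, c ≠ c0 → ∀ j, ∑ k, ι w k c * v k j = 0 := by
      intro c hc j
      exact congrFun (congrFun (LinearMap.mem_ker.1 hw) ⟨c, hc⟩) j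
    refine mem_DD.2 ⟨ι_supp w, ι_row w, fun c j => ?_⟩
    by_cases hc : c = c0
    · subst hc
      have h1 : ∑ c', ∑ k, ι w k c' * v k j = 0 := by
        rw [Finset.sum_comm]
        simp only [← Finset.sum_mul, ι_row, zero_mul, Finset.sum_const_zero]
      rw [Finset.sum_eq_single c] at h1
      · exact h1
      · intro c' _ hc'
        exact hw' c' hc' j
      · intro h; exact absurd (Finset.mem_univ _) h
    · exact hw' c hc j
  have h1 : finrank ℝ (LinearMap.ker Φ) ≤ finrank ℝ (DD v T) := by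
    let Ψ : LinearMap.ker Φ →ₗ[ℝ] DD v T :=
      LinearMap.codRestrict (DD v T) (ι.comp (LinearMap.ker Φ).subtype) (fun w => hker w.1 w.2)
    apply LinearMap.finrank_le_finrank_of_injective (f := Ψ)
    intro w w' h
    have h2 : ι w.1 = ι w'.1 := congrArg Subtype.val h
    exact Subtype.ext (ι_inj h2)
  have h2 := LinearMap.finrank_range_add_finrank_ker Φ
  have h3 : finrank ℝ (LinearMap.range Φ) ≤ (Fintype.card C - 1) * m := by
    refine (Submodule.finrank_le _).trans (le_of_eq ?_)
    rw [Module.finrank_pi_fintype]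
    simp only [Module.finrank_fintype_fun_eq_card, Fintype.card_fin, Finset.sum_const,
      Finset.card_univ, smul_eq_mul]
    rw [Fintype.card_subtype_compl, Fintype.card_subtype_eq]
  have h4 : finrank ℝ ({k // 2 ≤ (T k).card} → ℝ) =
      (Finset.univ.filter fun k => 2 ≤ (T k).card).card := by
    rw [Module.finrank_fintype_fun_eq_card, Fintype.card_subtype]
  omega

end Q151.Cookie
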