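import Pool.Agent.Q151.Cookie.Poly

/-!
The prime case of the fractional cookie splitting theorem.
-/

set_option autoImplicit false

namespace Q151.Cookie

open Finset Module Pool.Agent.Helper954.Hopf.Dold

/-- the number of members of `S` given entirely to `c` -/
noncomputable def full {K C : Type} (S : Finset K) (x : K → C → ℝ) (c : C) : ℕ :=
  by classical exact (S.filter fun k => x k c = 1).card

/-- the statement for a set of children `C` -/
def LP (C : Type) [Fintype C] : Prop :=
  ∀ (K : Type) [Fintype K] (m : ℕ) (v : K → Fin m → ℝ) (S : Finset K),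
    ∃ x : K → C → ℝ, x ∈ PP C v ∧
      (Set.ncard {k | ∀ c, x k c ≠ 1} ≤ (Fintype.card C - 1) * m) ∧
      ∀ c, S.card ≤ Fintype.card C * full S x c + (Fintype.card C - 1) * (m + 1)

section prime

variable {K : Type} [Fintype K] [DecidableEq K] {p : ℕ} [Fact p.Prime] {m : ℕ}

/-- shifting the children -/
def tau (l : ZMod p) : (K → ZMod p → ℝ) →ₗ[ℝ] (K → ZMod p → ℝ) where
  toFun z := fun k c => z k (c - l)
  map_add' _ _ := rfl
  map_smul' _ _ := rfl

theorem tau_apply (l : ZMod p) (z : K → ZMod p → ℝ) (k : K) (c : ZMod p) :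
    tau l z k c = z k (c - l) := rfl

theorem tau_tau (l l' : ZMod p) (z : K → ZMod p → ℝ) : tau l (tau l' z) = tau (l + l') z := by
  funext k c
  simp only [tau_apply]
  congr 1
  ring

theorem tau_zero (z : K → ZMod p → ℝ) : tau 0 z = z := by
  funext k c
  simp [tau_apply]

theorem tau_mem {v : K → Fin m → ℝ} (l : ZMod p) {x : K → ZMod p → ℝ} (hx : x ∈ PP (ZMod p) v) :
    tau l x ∈ PP (ZMod p) v := by
  refine ⟨fun k c => hx.1 k _, fun k => ?_, fun c j => hx.2.2 _ j⟩
  rw [← hx.2.1 k]
  exact Fintype.sum_equiv (Equiv.subRight l) _ _ fun c => rfl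

theorem tau_extreme {v : K → Fin m → ℝ} (l : ZMod p) {x : K → ZMod p → ℝ}
    (hx : x ∈ Set.extremePoints ℝ (PP (ZMod p) v)) :
    tau l x ∈ Set.extremePoints ℝ (PP (ZMod p) v) := by
  refine ⟨tau_mem l hx.1, ?_⟩
  intro y hy z hz hseg
  have h1 : x ∈ openSegment ℝ (tau (-l) y) (tau (-l) z) := by
    obtain ⟨a, b, ha, hb, hab, h⟩ := hseg
    refine ⟨a, b, ha, hb, hab, ?_⟩
    rw [← map_smul, ← map_smul, ← map_add, h, tau_tau, neg_add_cancel, tau_zero]
  have h2 := hx.2 (tau_mem (-l) hy) (tau_mem (-l) hz) h1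
  have h3 : tau l (tau (-l) y) = tau l x := by rw [h2]
  rw [tau_tau, add_neg_cancel, tau_zero] at h3
  exact h3

theorem full_tau (S : Finset K) (x : K → ZMod p → ℝ) (c : ZMod p) :
    full S (tau 1 x) (c + 1) = full S x c := by
  classical
  unfold full
  congr 1
  ext k
  simp only [Finset.mem_filter, tau_apply, add_sub_cancel_right]

/-- few non-integral cookies at an extreme point -/
theorem extreme_cut {C : Type} [Fintype C] [DecidableEq C] [Nonempty C] {v : K → Fin m → ℝ}
    {x : K → C → ℝ} (hx : x ∈ Set.extremePoints ℝ (PP C v)) :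
    Set.ncard {k | ∀ c, x k c ≠ 1} ≤ (Fintype.card C - 1) * m := by
  classical
  set T : K → Finset C := fun k => Finset.univ.filter fun c => x k c ≠ 0 with hT
  have hbot : DD v T = ⊥ := by
    rw [eq_bot_iff]
    intro z hz
    exact extreme_DD hx hz
  have h1 := DD_dim v T
  rw [hbot, finrank_bot, zero_add] at h1
  refine le_trans ?_ h1
  rw [← Set.ncard_coe_finset]
  apply Set.ncard_le_ncard _ (Set.toFinite _)
  intro k hk
  simp only [Set.mem_ofPred_eq] at hk
  simp only [Finset.coe_filter, Finset.mem_univ, true_and, Set.mem_ofPred_eq]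
  by_contra hlt
  push Not at hlt
  -- the support has at most one element
  have hsum := hx.1.2.1 k
  have hsum' : ∑ c ∈ T k, x k c = 1 := by
    rw [← hsum]
    apply Finset.sum_subset (Finset.subset_univ _)
    intro c _ hc
    simpa [hT] using hc
  rcases Nat.eq_zero_or_pos (T k).card with h0 | h0
  · rw [Finset.card_eq_zero.1 h0] at hsum'
    simp at hsum'
  · obtain ⟨c, hc⟩ := Finset.card_eq_one.1 (show (T k).card = 1 by omega)
    rw [hc, Finset.sum_singleton] at hsum'
    exact hk c hsum'

/-- The prime case. -/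
theorem prime_case (v : K → Fin m → ℝ) (S : Finset K) :
    ∃ x : K → ZMod p → ℝ, x ∈ PP (ZMod p) v ∧
      (Set.ncard {k | ∀ c, x k c ≠ 1} ≤ (p - 1) * m) ∧
      ∀ c, S.card ≤ p * full S x c + (p - 1) * (m + 1) := by
  classical
  have hp := (Fact.out : p.Prime)
  have hp2 : 2 ≤ p := hp.two_le
  set V := Set.extremePoints ℝ (PP (ZMod p) v) with hV
  have hVfin : V.Finite := extreme_finite v
  set VF : Finset (K → ZMod p → ℝ) := hVfin.toFinset with hVF
  have memVF : ∀ w, w ∈ VF ↔ w ∈ V := fun w => hVfin.mem_toFinset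
  by_contra hcon
  -- every extreme point has a bad child
  have hbad : ∀ w ∈ VF, ∃ c, p * full S w c + (p - 1) * (m + 1) < S.card := by
    intro w hw
    by_contra hc
    push Not at hc
    refine hcon ⟨w, ((memVF w).1 hw).1, ?_, hc⟩
    have := extreme_cut ((memVF w).1 hw)
    rwa [ZMod.card] at this
  set bad : (K → ZMod p → ℝ) → ZMod p → Prop := fun w c =>
    p * full S w c + (p - 1) * (m + 1) < S.card with hbadDef
  have bad_tau : ∀ w c, bad (tau 1 w) (c + 1) ↔ bad w c := by
    intro w c
    simp only [hbadDef, full_tau]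
  -- generic functionals
  obtain ⟨Λ, hΛ⟩ : ∃ Λ : ℕ → Module.Dual ℝ (K → ZMod p → ℝ),
      ∀ q : {q : (K → Finset (ZMod p)) × (Fin p → ZMod p) // p ≤ finrank ℝ (DD v q.1)},
        LinearIndependent ℝ (fun i : Fin p =>
          ((Λ i).comp (tau (if h : (i : ℕ) < p then -(q.1.2 ⟨i, h⟩) else 0))).comp
            (DD v q.1.1).subtype) := by
    let φ : ∀ q : {q : (K → Finset (ZMod p)) × (Fin p → ZMod p) // p ≤ finrank ℝ (DD v q.1)},
        ℕ → Module.Dual ℝ (K → ZMod p → ℝ) →ₗ[ℝ] Module.Dual ℝ (DD v q.1.1) := fun q i =>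
      { toFun := fun L => (L.comp (tau (if h : i < p then -(q.1.2 ⟨i, h⟩) else 0))).comp
            (DD v q.1.1).subtype
        map_add' := fun _ _ => rfl
        map_smul' := fun _ _ => rfl }
    have hφs : ∀ q i, i < p → Function.Surjective (φ q i) := by
      intro q i _ f
      obtain ⟨g, hg⟩ := LinearMap.exists_extend f
      refine ⟨g.comp (tau (-(if h : i < p then -(q.1.2 ⟨i, h⟩) else 0))), ?_⟩
      apply LinearMap.ext
      intro z
      show g (tau _ (tau _ z.1)) = f z
      rw [tau_tau, neg_add_cancel, tau_zero, ← hg]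
      rfl
    have := exists_generic (A := Module.Dual ℝ (K → ZMod p → ℝ))
      (Q := {q : (K → Finset (ZMod p)) × (Fin p → ZMod p) // p ≤ finrank ℝ (DD v q.1)})
      (fun q => Module.Dual ℝ (DD v q.1.1)) p
      (fun q => by rw [Subspace.dual_finrank_eq]; exact q.2) φ hφs p le_rfl
    exact this
  -- the functional of a point of the join
  set lam : VV p p → (K → ZMod p → ℝ) → ℝ := fun x z => ∑ i, ∑ l, x i l * Λ i (tau (-l) z)
    with hlam
  have lam_add : ∀ x z z', lam x (z + z') = lam x z + lam x z' := by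
    intro x z z'
    simp only [hlam, map_add, mul_add, Finset.sum_add_distrib]
  have lam_smul : ∀ x (t : ℝ) z, lam x (t • z) = t * lam x z := by
    intro x t z
    simp only [hlam, map_smul, smul_eq_mul, Finset.mul_sum]
    refine Finset.sum_congr rfl fun i _ => Finset.sum_congr rfl fun l _ => by ring
  have lam_cont : ∀ z, Continuous fun x => lam x z := by
    intro z
    simp only [hlam]
    fun_prop
  have lam_sh : ∀ x z, lam (sh x) (tau 1 z) = lam x z := by
    intro x z
    simp only [hlam]
    refine Finset.sum_congr rfl fun i _ => ?_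
    refine Fintype.sum_equiv (Equiv.subRight 1) _ _ fun l => ?_
    simp only [Equiv.subRight_apply, tau_tau, sh]
    congr 3
    ring
  have hVne : VF.Nonempty := by
    obtain ⟨w, hw⟩ := (PP_compact (C := ZMod p) v).extremePoints_nonempty (PP_nonempty v)
    exact ⟨w, (memVF w).2 hw⟩
  -- bad lists are nonempty
  have hbadne : ∀ c, (VF.filter fun w => bad w c).Nonempty := by
    obtain ⟨w, hw⟩ := hVne
    obtain ⟨c0, hc0⟩ := hbad w hw
    have : ∀ n : ℕ, (VF.filter fun w => bad w (c0 + n)).Nonempty := by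
      intro n
      induction n with
      | zero => exact ⟨w, Finset.mem_filter.2 ⟨hw, by simpa using hc0⟩⟩
      | succ n ih =>
        obtain ⟨u, hu⟩ := ih
        obtain ⟨hu1, hu2⟩ := Finset.mem_filter.1 hu
        refine ⟨tau 1 u, Finset.mem_filter.2 ⟨(memVF _).2 (tau_extreme 1 ((memVF u).1 hu1)), ?_⟩⟩
        push_cast
        rw [← add_assoc, bad_tau]
        exact hu2
    intro c
    have h1 := this (c - c0).val
    rw [ZMod.natCast_zmod_val, add_sub_cancel] at h1
    exact h1
  set mx : VV p p → ℝ := fun x => VF.sup' hVne (fun w => lam x w) with hmx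
  have mx_cont : Continuous mx := by
    apply Continuous.finset_sup'_apply
    intro w _
    exact lam_cont w
  have mx_ge : ∀ x w, w ∈ VF → lam x w ≤ mx x := fun x w hw => Finset.le_sup' (fun w => lam x w) hw
  set z : VV p p → ZMod p → ℝ := fun x c =>
    (VF.filter fun w => bad w c).inf' (hbadne c) (fun w => mx x - lam x w) with hz
  have z_cont : ∀ c, Continuous fun x => z x c := by
    intro c
    apply Continuous.finset_inf'_apply
    intro w _
    exact mx_cont.sub (lam_cont w)
  have mx_sh : ∀ x, mx (sh x) = mx x := by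
    intro x
    apply le_antisymm
    · apply Finset.sup'_le
      intro w hw
      have h1 : w = tau 1 (tau (-1) w) := by rw [tau_tau, add_neg_cancel, tau_zero]
      rw [h1, lam_sh]
      exact mx_ge x _ ((memVF _).2 (tau_extreme (-1) ((memVF w).1 hw)))
    · apply Finset.sup'_le
      intro w hw
      rw [← lam_sh]
      exact mx_ge (sh x) _ ((memVF _).2 (tau_extreme 1 ((memVF w).1 hw)))
  have z_equi : ∀ x c, z (sh x) (c + 1) = z x c := by
    intro x c
    apply le_antisymm
    · apply Finset.le_inf'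
      intro w hw
      obtain ⟨hw1, hw2⟩ := Finset.mem_filter.1 hw
      have h1 : z (sh x) (c + 1) ≤ mx (sh x) - lam (sh x) (tau 1 w) :=
        Finset.inf'_le (fun w => mx (sh x) - lam (sh x) w)
          (Finset.mem_filter.2 ⟨(memVF _).2 (tau_extreme 1 ((memVF w).1 hw1)), (bad_tau w c).2 hw2⟩)
      rwa [mx_sh, lam_sh] at h1
    · apply Finset.le_inf'
      intro w hw
      obtain ⟨hw1, hw2⟩ := Finset.mem_filter.1 hw
      have e1 : w = tau 1 (tau (-1) w) := by rw [tau_tau, add_neg_cancel, tau_zero]
      have hw3 : bad (tau (-1) w) c := by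
        rw [← bad_tau, ← e1]; exact hw2
      have h1 : z x c ≤ mx x - lam x (tau (-1) w) :=
        Finset.inf'_le (fun w => mx x - lam x w)
          (Finset.mem_filter.2 ⟨(memVF _).2 (tau_extreme (-1) ((memVF w).1 hw1)), hw3⟩)
      rw [mx_sh]
      conv_rhs => rw [e1, lam_sh]
      exact h1
  obtain ⟨x, hx, hxz⟩ := zbu z z_cont z_equi
  -- all gaps vanish
  obtain ⟨w0, hw0, hw0m⟩ : ∃ w ∈ VF, lam x w = mx x := by
    obtain ⟨w, hw, h⟩ := Finset.exists_mem_eq_sup' hVne (fun w => lam x w)
    exact ⟨w, hw, h.symm⟩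
  obtain ⟨c0, hc0⟩ := hbad w0 hw0
  have hz0 : ∀ c, z x c = 0 := by
    have h1 : z x c0 = 0 := by
      apply le_antisymm
      · have : z x c0 ≤ mx x - lam x w0 :=
          Finset.inf'_le (fun w => mx x - lam x w) (Finset.mem_filter.2 ⟨hw0, hc0⟩)
        linarith
      · apply Finset.le_inf'
        intro w hw
        have := mx_ge x w (Finset.mem_filter.1 hw).1
        linarith
    intro c
    rw [hxz c c0, h1]
  have hex : ∀ c, ∃ w ∈ VF, bad w c ∧ lam x w = mx x := by
    intro c
    obtain ⟨w, hw, h⟩ := Finset.exists_mem_eq_inf' (hbadne c) (fun w => mx x - lam x w)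
    obtain ⟨hw1, hw2⟩ := Finset.mem_filter.1 hw
    refine ⟨w, hw1, hw2, ?_⟩
    have h2 : z x c = mx x - lam x w := h
    rw [hz0] at h2
    linarith
  choose W hWV hWbad hWmax using hex
  -- maximum over the polytope
  have hmaxP : ∀ y ∈ PP (ZMod p) v, lam x y ≤ mx x := by
    intro y hy
    set L : (K → ZMod p → ℝ) →ₗ[ℝ] ℝ :=
      { toFun := lam x
        map_add' := lam_add x
        map_smul' := lam_smul x } with hL
    set Lc : StrongDual ℝ (K → ZMod p → ℝ) := LinearMap.toContinuousLinearMap L with hLc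
    have hLc' : ∀ z, Lc z = lam x z := fun z => rfl
    have hcomp := PP_compact (C := ZMod p) v
    obtain ⟨y0, hy0, hmax⟩ := hcomp.exists_isMaxOn (PP_nonempty v) Lc.continuous.continuousOn
    set F : Set (K → ZMod p → ℝ) := {z ∈ PP (ZMod p) v | ∀ y ∈ PP (ZMod p) v, Lc y ≤ Lc z} with hF
    have hFexp : IsExposed ℝ (PP (ZMod p) v) F := fun _ => ⟨Lc, rfl⟩
    have hFne : F.Nonempty := ⟨y0, hy0, fun y hy => hmax hy⟩
    have hFcomp : IsCompact F := hFexp.isCompact hcomp
    obtain ⟨u, hu⟩ := hFcomp.extremePoints_nonempty hFne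
    have huV : u ∈ V := hFexp.isExtreme.extremePoints_subset_extremePoints hu
    have huF : u ∈ F := hu.1
    have h1 := huF.2 y hy
    rw [hLc', hLc'] at h1
    exact h1.trans (mx_ge x u ((memVF u).2 huV))
  -- the average
  have hpR : (p : ℝ) ≠ 0 := by exact_mod_cast hp.ne_zero
  set xb : K → ZMod p → ℝ := ∑ c, (1 / (p : ℝ)) • W c with hxb
  have hxbP : xb ∈ PP (ZMod p) v := by
    apply (PP_convex v).sum_mem
    · intro c _; positivity
    · rw [Finset.sum_const, Finset.card_univ, ZMod.card, nsmul_eq_mul]; field_simp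
    · intro c _; exact ((memVF _).1 (hWV c)).1
  have hxb_apply : ∀ k c, xb k c = ∑ c', (1 / (p : ℝ)) * W c' k c := by
    intro k c
    simp only [hxb, Finset.sum_apply, Pi.smul_apply, smul_eq_mul]
  have hlamxb : lam x xb = mx x := by
    have h1 : ∀ s : Finset (ZMod p), lam x (∑ c ∈ s, (1 / (p : ℝ)) • W c) =
        ∑ c ∈ s, (1 / (p : ℝ)) * mx x := by
      intro s
      induction s using Finset.induction_on with
      | empty =>
        simp only [Finset.sum_empty]
        have := lam_smul x 0 0
        simpa using this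
      | insert a s ha ih =>
        rw [Finset.sum_insert ha, Finset.sum_insert ha, lam_add, lam_smul, hWmax, ih]
    rw [hxb, h1, Finset.sum_const, Finset.card_univ, ZMod.card, nsmul_eq_mul]
    field_simp
  set T : K → Finset (ZMod p) := fun k => Finset.univ.filter fun c => xb k c ≠ 0 with hT
  -- the functional vanishes on the allowed directions
  have hvan : ∀ z ∈ DD v T, lam x z = 0 := by
    intro z hz
    obtain ⟨ε, hε, hstep⟩ := step_mem hxbP hz
    have h1 := hmaxP _ (hstep ε (by rw [abs_of_pos hε]))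
    have h2 := hmaxP _ (hstep (-ε) (by rw [abs_neg, abs_of_pos hε]))
    rw [lam_add, lam_smul, hlamxb] at h1 h2
    have h3 : ε * lam x z ≤ 0 := by linarith
    have h4 : 0 ≤ ε * lam x z := by linarith
    have h5 : ε * lam x z = 0 := le_antisymm h3 h4
    exact (mul_eq_zero.1 h5).resolve_left hε.ne'
  -- counting
  have hWzero : ∀ k c, xb k c = 0 → ∀ c', W c' k c = 0 := by
    intro k c h c'
    rw [hxb_apply] at h
    have h1 := (Finset.sum_eq_zero_iff_of_nonneg (fun c' _ =>
      mul_nonneg (by positivity) ((((memVF _).1 (hWV c')).1).1 k c))).1 h c' (Finset.mem_univ _)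
    rcases mul_eq_zero.1 h1 with h2 | h2
    · exfalso
      have : (1 : ℝ) / p ≠ 0 := by positivity
      exact this h2
    · exact h2
  have hone : ∀ k c, T k = {c} → ∀ c', W c' k c = 1 := by
    intro k c hk c'
    rw [← (((memVF _).1 (hWV c')).1).2.1 k]
    symm
    apply Finset.sum_eq_single c
    · intro d _ hd
      apply hWzero
      by_contra hne
      have : d ∈ T k := Finset.mem_filter.2 ⟨Finset.mem_univ _, hne⟩
      rw [hk, Finset.mem_singleton] at this
      exact hd this
    · intro h; exact absurd (Finset.mem_univ _) h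
  have hTne : ∀ k, 1 ≤ (T k).card := by
    intro k
    rw [Nat.one_le_iff_ne_zero]
    intro h0
    have h1 := hxbP.2.1 k
    have h2 : ∑ c, xb k c = 0 := by
      apply Finset.sum_eq_zero
      intro c _
      by_contra hne
      have : c ∈ T k := Finset.mem_filter.2 ⟨Finset.mem_univ _, hne⟩
      rw [Finset.card_eq_zero.1 h0] at this
      simp at this
    rw [h2] at h1
    norm_num at h1
  set aa : ZMod p → ℕ := fun c => (S.filter fun k => T k = {c}).card with haa
  have haa_le : ∀ c, aa c ≤ full S (W c) c := by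
    intro c
    unfold full
    apply Finset.card_le_card
    intro k hk
    obtain ⟨h1, h2⟩ := Finset.mem_filter.1 hk
    exact Finset.mem_filter.2 ⟨h1, hone k c h2 c⟩
  have hScard : S.card ≤ ∑ c, aa c + (Finset.univ.filter fun k => 2 ≤ (T k).card).card := by
    have h1 : S ⊆ ((Finset.univ : Finset (ZMod p)).biUnion fun c => S.filter fun k => T k = {c}) ∪
        (Finset.univ.filter fun k => 2 ≤ (T k).card) := by
      intro k hk
      rcases Nat.lt_or_ge (T k).card 2 with h | h
      · obtain ⟨c, hc⟩ := Finset.card_eq_one.1 (show (T k).card = 1 by have := hTne k; omega)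
        exact Finset.mem_union_left _ (Finset.mem_biUnion.2 ⟨c, Finset.mem_univ _,
          Finset.mem_filter.2 ⟨hk, hc⟩⟩)
      · exact Finset.mem_union_right _ (Finset.mem_filter.2 ⟨Finset.mem_univ _, h⟩)
    calc S.card ≤ _ := Finset.card_le_card h1
      _ ≤ _ := Finset.card_union_le _ _
      _ ≤ _ := Nat.add_le_add_right Finset.card_biUnion_le _
  have hsum : ∑ c : ZMod p, (p * aa c + (p - 1) * (m + 1) + 1) ≤ ∑ _c : ZMod p, S.card := by
    apply Finset.sum_le_sum
    intro c _
    have h1 := hWbad c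
    have h2 := haa_le c
    have h3 : p * aa c ≤ p * full S (W c) c := Nat.mul_le_mul_left p h2
    have h4 : p * full S (W c) c + (p - 1) * (m + 1) < S.card := h1
    omega
  rw [Finset.sum_add_distrib, Finset.sum_add_distrib, ← Finset.mul_sum, Finset.sum_const,
    Finset.sum_const, Finset.sum_const, Finset.card_univ, ZMod.card] at hsum
  simp only [smul_eq_mul, mul_one] at hsum
  have hsum' : p * (∑ c, aa c + (p - 1) * (m + 1) + 1) ≤ p * S.card := by
    calc p * (∑ c, aa c + (p - 1) * (m + 1) + 1) = p * ∑ c, aa c + p * ((p - 1) * (m + 1)) + p := by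
          ring
      _ ≤ p * S.card := hsum
  have hsum'' := Nat.le_of_mul_le_mul_left hsum' hp.pos
  have hU : (p - 1) * (m + 1) + 1 ≤ (Finset.univ.filter fun k => 2 ≤ (T k).card).card := by omega
  have hdim := DD_dim v T
  rw [ZMod.card] at hdim
  have hfr : p ≤ finrank ℝ (DD v T) := by
    have h1 : (p - 1) * (m + 1) + 1 = (p - 1) * m + p := by
      have : (p - 1) * (m + 1) = (p - 1) * m + (p - 1) := by ring
      omega
    omega
  -- contradiction with genericity
  obtain ⟨hx0, hx1, hx2⟩ := hx
  have hsel : ∀ i : Fin p, ∃ l : ZMod p, ∀ l', l' ≠ l → x i l' = 0 := by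
    intro i
    by_cases h : ∃ l, x i l ≠ 0
    · obtain ⟨l, hl⟩ := h
      refine ⟨l, fun l' hl' => ?_⟩
      exact (hx2 i l' l hl').resolve_right hl
    · push Not at h
      exact ⟨0, fun l' _ => h l'⟩
  choose g hg using hsel
  have hind := hΛ ⟨(T, g), hfr⟩
  rw [Fintype.linearIndependent_iff] at hind
  have ht := hind (fun i => x i (g i)) (by
    apply LinearMap.ext
    intro z
    simp only [LinearMap.sum_apply, LinearMap.smul_apply, LinearMap.comp_apply,
      LinearMap.zero_apply, smul_eq_mul, Submodule.coe_subtype]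
    have h1 := hvan z.1 z.2
    rw [← h1]
    simp only [hlam]
    refine Finset.sum_congr rfl fun i _ => ?_
    rw [Finset.sum_eq_single (g i)]
    · congr 2
      rw [dif_pos i.isLt]
    · intro l _ hl
      rw [hg i l hl, zero_mul]
    · intro h; exact absurd (Finset.mem_univ _) h)
  have hzero : ∑ i, ∑ l, x i l = 0 := by
    apply Finset.sum_eq_zero
    intro i _
    apply Finset.sum_eq_zero
    intro l _
    by_cases hl : l = g i
    · rw [hl]; exact ht i
    · exact hg i l hl
  rw [hzero] at hx1
  norm_num at hx1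

end prime

end Q151.Cookie
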