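import Pool.Agent.Helper954.Hopf.D1c

/-!
A Borsuk-Ulam theorem for `ZMod p`-equivariant maps from the `p`-fold join of `ZMod p` to `ℝ^p`.
-/

set_option autoImplicit false

namespace Q151.Cookie

open Finset Filter Topology Pool.Agent.Helper954.Hopf.Dold

variable {p : ℕ} [Fact p.Prime]

/-- strict separation of a set of coordinates -/
def sep (z : ZMod p → ℝ) (S : Finset (ZMod p)) : Prop := ∀ a ∈ S, ∀ b, b ∉ S → z b < z a

theorem sep_unique {z : ZMod p → ℝ} {S T : Finset (ZMod p)} (hS : sep z S) (hT : sep z T)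
    (h : S.card = T.card) : S = T := by
  by_contra hne
  have h1 : ¬ S ⊆ T := fun hsub => hne (Finset.eq_of_subset_of_card_le hsub h.ge)
  have h2 : ¬ T ⊆ S := fun hsub => hne (Finset.eq_of_subset_of_card_le hsub h.le).symm
  obtain ⟨a, ha, ha'⟩ := Finset.not_subset.1 h1
  obtain ⟨b, hb, hb'⟩ := Finset.not_subset.1 h2
  have e1 := hS a ha b hb'
  have e2 := hT b hb a ha'
  linarith

/-- **Borsuk-Ulam for `ZMod p`**: an equivariant continuous map to `ℝ^p` has a point with all
coordinates equal. -/
theorem zbu (z : VV p p → ZMod p → ℝ) (hz : ∀ c, Continuous fun x => z x c)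
    (he : ∀ x c, z (sh x) (c + 1) = z x c) : ∃ x ∈ JK p p, ∀ c c', z x c = z x c' := by
  classical
  have hp := (Fact.out : p.Prime)
  have hp2 : 2 ≤ p := hp.two_le
  set O : Fin (p - 1) → Set (VV p p) := fun j => {x | ∃ S : Finset (ZMod p), S.card = (j : ℕ) + 1 ∧
    sep (z x) S} with hO
  set lab : Fin (p - 1) → VV p p → ZMod p := fun j x =>
    if h : ∃ S : Finset (ZMod p), S.card = (j : ℕ) + 1 ∧ sep (z x) S then
      (∑ s ∈ h.choose, s) * (((j : ℕ) + 1 : ℕ) : ZMod p)⁻¹ else 0 with hlab
  have lab_eq : ∀ (j : Fin (p - 1)) (x : VV p p) (S : Finset (ZMod p)), S.card = (j : ℕ) + 1 → sep (z x) S →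
      lab j x = (∑ s ∈ S, s) * (((j : ℕ) + 1 : ℕ) : ZMod p)⁻¹ := by
    intro j x S hS hsep
    have h : ∃ S : Finset (ZMod p), S.card = (j : ℕ) + 1 ∧ sep (z x) S := ⟨S, hS, hsep⟩
    simp only [hlab]
    rw [dif_pos h]
    have : h.choose = S := sep_unique h.choose_spec.2 hsep (h.choose_spec.1.trans hS.symm)
    rw [this]
  have hopen : ∀ S : Finset (ZMod p), IsOpen {x : VV p p | sep (z x) S} := by
    intro S
    have : {x : VV p p | sep (z x) S} = ⋂ a ∈ S, ⋂ b ∈ (Finset.univ.filter fun b => b ∉ S),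
        {x | z x b < z x a} := by
      ext x
      simp only [sep, Set.mem_ofPred_eq, Set.mem_iInter, Finset.mem_filter, Finset.mem_univ,
        true_and]
    rw [this]
    refine isOpen_biInter_finset fun a _ => isOpen_biInter_finset fun b _ => ?_
    exact isOpen_lt (hz b) (hz a)
  have hshift : ∀ x (S : Finset (ZMod p)), sep (z x) S → sep (z (sh x)) (S.image (· + 1)) := by
    intro x S h a ha b hb
    obtain ⟨a', ha', rfl⟩ := Finset.mem_image.1 ha
    have hb' : b - 1 ∉ S := by
      intro hc
      exact hb (Finset.mem_image.2 ⟨b - 1, hc, by ring⟩)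
    have := h a' ha' (b - 1) hb'
    rw [← he x a', ← he x (b - 1), sub_add_cancel] at this
    exact this
  have hcardim : ∀ S : Finset (ZMod p), (S.image (· + 1)).card = S.card := by
    intro S
    exact Finset.card_image_of_injective _ (add_left_injective 1)
  obtain ⟨x, hx, hxO⟩ := D1c.join_cover p p (J := Fin (p - 1)) (by simp; omega) O
    (by
      intro j
      have : O j = ⋃ S ∈ (Finset.univ.filter fun S : Finset (ZMod p) => S.card = (j : ℕ) + 1),
          {x | sep (z x) S} := by
        ext x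
        simp only [hO, Set.mem_ofPred_eq, Set.mem_iUnion, Finset.mem_filter, Finset.mem_univ,
          true_and, exists_prop]
      rw [this]
      exact isOpen_biUnion fun S _ => hopen S)
    lab
    (by
      rintro j x ⟨S, hS, hsep⟩
      have h1 : ∀ᶠ y in 𝓝 x, sep (z y) S := (hopen S).mem_nhds hsep
      filter_upwards [h1] with y hy
      rw [lab_eq j y S hS hy, lab_eq j x S hS hsep])
    (by
      rintro j x ⟨S, hS, hsep⟩
      exact ⟨S.image (· + 1), (hcardim S).trans hS, hshift x S hsep⟩)
    (by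
      rintro j x ⟨S, hS, hsep⟩
      rw [lab_eq j x S hS hsep, lab_eq j (sh x) _ ((hcardim S).trans hS) (hshift x S hsep)]
      rw [Finset.sum_image (fun a _ b _ h => add_left_injective 1 h), Finset.sum_add_distrib,
        Finset.sum_const, hS, nsmul_eq_mul, mul_one, add_mul]
      congr 1
      apply mul_inv_cancel₀
      intro h0
      rw [ZMod.natCast_eq_zero_iff] at h0
      have := Nat.le_of_dvd (by omega) h0
      have := j.isLt
      omega)
  refine ⟨x, hx, ?_⟩
  suffices h : ∀ a b, ¬ z x a < z x b by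
    intro c c'
    exact le_antisymm (not_lt.1 (h c' c)) (not_lt.1 (h c c'))
  intro a b hab
  set S : Finset (ZMod p) := Finset.univ.filter fun c => z x a < z x c with hS
  have hbS : b ∈ S := Finset.mem_filter.2 ⟨Finset.mem_univ _, hab⟩
  have haS : a ∉ S := fun h => lt_irrefl _ (Finset.mem_filter.1 h).2
  have hpos : 0 < S.card := Finset.card_pos.2 ⟨b, hbS⟩
  have hlt : S.card < p := by
    have h1 : S.card < (Finset.univ : Finset (ZMod p)).card :=
      Finset.card_lt_card ⟨Finset.subset_univ _, fun h => haS (h (Finset.mem_univ a))⟩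
    rwa [Finset.card_univ, ZMod.card] at h1
  have hsep : sep (z x) S := by
    intro s hs t ht
    have h1 := (Finset.mem_filter.1 hs).2
    have h2 : ¬ z x a < z x t := fun h => ht (Finset.mem_filter.2 ⟨Finset.mem_univ _, h⟩)
    exact lt_of_le_of_lt (not_lt.1 h2) h1
  exact hxO ⟨S.card - 1, by omega⟩ ⟨S, by simp; omega, hsep⟩

end Q151.Cookie
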